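import Pool.Agent.Helper56.NB.Defs

/-!
# Flat base change of the corner conditions
-/

open scoped TensorProduct

namespace Pool.Agent.Helper56.NB

open Pool.Agent.H35SD Pool.Agent.Helper56.SDD

universe u v

theorem lT_mulRight {C₀ C Λ₀ : Type*} [CommRing C₀] [CommRing C] [Algebra C₀ C] [Ring Λ₀]
    [Algebra C₀ Λ₀] (m : Λ₀) (x : C ⊗[C₀] Λ₀) :
    (LinearMap.mulRight C₀ m).lTensor C x = x * ((1 : C) ⊗ₜ[C₀] m) := by
  induction x using TensorProduct.induction_on with
  | zero => simp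
  | tmul a l =>
    rw [Algebra.TensorProduct.tmul_mul_tmul, mul_one, LinearMap.lTensor_tmul]
    rfl
  | add x y hx hy => rw [map_add, add_mul, hx, hy]

/-- Base change of the corner conditions. -/
theorem corner_flat {k₀ k Λ₀ S₀ : Type u} [CommRing k₀] [CommRing k] [Algebra k₀ k]
    [Module.Flat k₀ k] [Ring Λ₀] [Algebra k₀ Λ₀] [Ring S₀] [Algebra k₀ S₀] (θ₀ : S₀ →ₗ[k₀] Λ₀)
    {J : Type v} {ε₀ : J → Λ₀} (h : Corner θ₀ ε₀) :
    Corner (TensorProduct.map (LinearMap.id : k →ₗ[k₀] k) θ₀ : k ⊗[k₀] S₀ → k ⊗[k₀] Λ₀)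
      (fun j => (1 : k) ⊗ₜ[k₀] ε₀ j) := by
  classical
  have hΘ : ∀ (a : k) (s : S₀), (TensorProduct.map (LinearMap.id : k →ₗ[k₀] k) θ₀) (a ⊗ₜ[k₀] s)
      = a ⊗ₜ[k₀] θ₀ s := fun a s => by rw [TensorProduct.map_tmul]; rfl
  have hΘ1 : (TensorProduct.map (LinearMap.id : k →ₗ[k₀] k) θ₀) (1 : k ⊗[k₀] S₀)
      = (1 : k) ⊗ₜ[k₀] θ₀ 1 := by
    rw [Algebra.TensorProduct.one_def, hΘ]
  have h11 : θ₀ 1 * θ₀ 1 = θ₀ 1 := by rw [← h.mul, mul_one]
  refine ⟨fun s t => map_add _ _ _, ?_, ?_, ?_, ?_, ?_⟩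
  · intro s t
    induction s using TensorProduct.induction_on with
    | zero => simp
    | tmul a s =>
      induction t using TensorProduct.induction_on with
      | zero => simp
      | tmul b t =>
        rw [Algebra.TensorProduct.tmul_mul_tmul, hΘ, hΘ, hΘ, Algebra.TensorProduct.tmul_mul_tmul,
          h.mul]
      | add x y hx hy => rw [mul_add, map_add, map_add, mul_add, hx, hy]
    | add x y hx hy => rw [add_mul, map_add, map_add, add_mul, hx, hy]
  · intro l
    rw [hΘ1]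
    induction l using TensorProduct.induction_on with
    | zero => exact ⟨0, by simp⟩
    | tmul a l =>
      obtain ⟨s, hs⟩ := h.surj l
      refine ⟨a ⊗ₜ[k₀] s, ?_⟩
      rw [hΘ, hs, Algebra.TensorProduct.tmul_mul_tmul, Algebra.TensorProduct.tmul_mul_tmul,
        one_mul, mul_one]
    | add x y hx hy =>
      obtain ⟨s, hs⟩ := hx
      obtain ⟨t, ht⟩ := hy
      exact ⟨s + t, by rw [map_add, hs, ht, mul_add, add_mul]⟩
  · intro j
    rw [Algebra.TensorProduct.tmul_mul_tmul, one_mul, h.idem]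
  · rw [hΘ1]
    have key : ∀ l : k ⊗[k₀] Λ₀, ∃ F : Finset J, ∀ F' : Finset J, F ⊆ F' →
        l * ((1 : k) ⊗ₜ[k₀] θ₀ 1)
          = ∑ j ∈ F', ((1 : k) ⊗ₜ[k₀] ε₀ j) * (l * ((1 : k) ⊗ₜ[k₀] θ₀ 1)) := by
      intro l
      induction l using TensorProduct.induction_on with
      | zero => exact ⟨∅, fun F' _ => by simp⟩
      | tmul a l =>
        obtain ⟨F, hF⟩ := h.fin (l * θ₀ 1) (by rw [mul_assoc, h11])
        refine ⟨F, fun F' hF' => ?_⟩
        have := hF F' hF'
        rw [Algebra.TensorProduct.tmul_mul_tmul, mul_one]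
        have e1 : ∀ j ∈ F', ((1 : k) ⊗ₜ[k₀] ε₀ j) * (a ⊗ₜ[k₀] (l * θ₀ 1))
            = a ⊗ₜ[k₀] (ε₀ j * (l * θ₀ 1)) := fun j _ => by
          rw [Algebra.TensorProduct.tmul_mul_tmul, one_mul]
        rw [Finset.sum_congr rfl e1, ← TensorProduct.tmul_sum, ← this]
      | add x y hx hy =>
        obtain ⟨F, hF⟩ := hx
        obtain ⟨G, hG⟩ := hy
        refine ⟨F ∪ G, fun F' hF' => ?_⟩
        have h1 := hF F' (Finset.union_subset_left hF')
        have h2 := hG F' (Finset.union_subset_right hF')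
        rw [add_mul]
        conv_lhs => rw [h1, h2, ← Finset.sum_add_distrib]
        exact Finset.sum_congr rfl fun j _ => by rw [mul_add]
    intro c hc
    obtain ⟨F, hF⟩ := key c
    refine ⟨F, fun F' hF' => ?_⟩
    have := hF F' hF'
    rw [hc] at this
    exact this
  · intro j
    obtain ⟨b, a, d, H, p1, p2, p3, p4, p5⟩ := h.pres j
    refine ⟨b, a, fun l => (1 : k) ⊗ₜ[k₀] d l, fun l t => (1 : k) ⊗ₜ[k₀] H l t, ?_, ?_, ?_, ?_, ?_⟩
    · intro l
      rw [hΘ1, Algebra.TensorProduct.tmul_mul_tmul, Algebra.TensorProduct.tmul_mul_tmul, one_mul,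
        (p1 l).1, (p1 l).2]
      exact ⟨rfl, rfl⟩
    · intro t
      have e1 : ∀ l ∈ (Finset.univ : Finset (Fin b)), ((1 : k) ⊗ₜ[k₀] d l) *
          (TensorProduct.map (LinearMap.id : k →ₗ[k₀] k) θ₀) ((1 : k) ⊗ₜ[k₀] H l t)
          = (1 : k) ⊗ₜ[k₀] (d l * θ₀ (H l t)) := fun l _ => by
        rw [hΘ, Algebra.TensorProduct.tmul_mul_tmul, one_mul]
      rw [Finset.sum_congr rfl e1, ← TensorProduct.tmul_sum, p2, TensorProduct.tmul_zero]
    · rw [hΘ1]
      have key : ∀ l : k ⊗[k₀] Λ₀, ∃ r : Fin b → k ⊗[k₀] S₀,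
          ((1 : k) ⊗ₜ[k₀] ε₀ j) * l * ((1 : k) ⊗ₜ[k₀] θ₀ 1)
            = ∑ i, ((1 : k) ⊗ₜ[k₀] d i) *
              (TensorProduct.map (LinearMap.id : k →ₗ[k₀] k) θ₀) (r i) := by
        intro l
        induction l using TensorProduct.induction_on with
        | zero => exact ⟨0, by simp⟩
        | tmul x l =>
          obtain ⟨r, hr⟩ := p3 (ε₀ j * l * θ₀ 1)
            (by rw [← mul_assoc, ← mul_assoc, h.idem]) (by rw [mul_assoc, h11])
          refine ⟨fun i => x ⊗ₜ[k₀] r i, ?_⟩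
          rw [Algebra.TensorProduct.tmul_mul_tmul, Algebra.TensorProduct.tmul_mul_tmul, one_mul,
            mul_one, hr, TensorProduct.tmul_sum]
          refine Finset.sum_congr rfl fun i _ => ?_
          rw [hΘ, Algebra.TensorProduct.tmul_mul_tmul, one_mul]
        | add x y hx hy =>
          obtain ⟨r, hr⟩ := hx
          obtain ⟨s, hs⟩ := hy
          refine ⟨r + s, ?_⟩
          rw [mul_add, add_mul, hr, hs, ← Finset.sum_add_distrib]
          exact Finset.sum_congr rfl fun i _ => by rw [Pi.add_apply, map_add, mul_add]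
      intro c hc1 hc2
      obtain ⟨r, hr⟩ := key c
      rw [hc1, hc2] at hr
      exact ⟨r, hr⟩
    · rw [hΘ1]
      intro c hc hH
      obtain ⟨n, x, z, hz, hcz⟩ := flat_tuples (C := k)
        (fun l t => LinearMap.mulRight k₀ (θ₀ (H l t))) c (by
          intro t
          have := hH t
          rw [← this]
          refine Finset.sum_congr rfl fun l _ => ?_
          rw [lT_mulRight, hΘ])
      have q1 : ∀ i l, (z i l * θ₀ 1) * θ₀ 1 = z i l * θ₀ 1 := fun i l => by
        rw [mul_assoc, h11]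
      have q2 : ∀ i t, ∑ l, (z i l * θ₀ 1) * θ₀ (H l t) = 0 := fun i t => by
        rw [← hz i t]
        refine Finset.sum_congr rfl fun l _ => ?_
        rw [mul_assoc, ← h.mul, one_mul]
        rfl
      have q3 : ∀ i, ∃ l' : Λ₀, ∀ l, z i l * θ₀ 1 = l' * d l := fun i =>
        p4 (fun l => z i l * θ₀ 1) (q1 i) (q2 i)
      choose g hg using q3
      refine ⟨∑ i, x i ⊗ₜ[k₀] g i, fun l => ?_⟩
      rw [Finset.sum_mul, ← hc l, hcz l, Finset.sum_mul]
      refine Finset.sum_congr rfl fun i _ => ?_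
      rw [Algebra.TensorProduct.tmul_mul_tmul, Algebra.TensorProduct.tmul_mul_tmul, hg i l]
    · intro l' h1 h2
      obtain ⟨n, x, z, hz, hcz⟩ := flat_tuples (C := k)
        (fun (_ : Fin 1) l => LinearMap.mulRight k₀ (d l)) (fun _ => l') (by
          intro l
          rw [Fin.sum_univ_one, lT_mulRight]
          exact h2 l)
      rw [← h1, hcz 0, Finset.sum_mul]
      refine Finset.sum_eq_zero fun i _ => ?_
      rw [Algebra.TensorProduct.tmul_mul_tmul]
      have q : z i 0 * ε₀ j = 0 := by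
        apply p5
        · rw [mul_assoc, h.idem]
        · intro l
          rw [mul_assoc, (p1 l).1]
          have := hz i l
          rw [Fin.sum_univ_one] at this
          exact this
      rw [q, TensorProduct.tmul_zero]

end Pool.Agent.Helper56.NB
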